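import Mathlib

open Polynomial Filter Topology

namespace Pool.Agent.Results.MP_045218_nt.Counter

/-- the ring of integers `F_2[t]` of the global function field `F_2(t)` -/
abbrev O : Type := (ZMod 2)[X]

open Classical in
/-- Folner sequences in the additive group of `O` -/
def IsFolner (F : ℕ → Finset O) : Prop :=
  (∀ N, (F N).Nonempty) ∧ ∀ a : O, Tendsto
    (fun N => ((symmDiff ((F N).image (· + a)) (F N)).card : ℝ) / (F N).card) atTop (𝓝 0)

open Classical in
/-- upper Banach density -/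
noncomputable def dstar (A : Set O) : ENNReal :=
  ⨆ (F : ℕ → Finset O) (_ : IsFolner F),
    limsup (fun N => (((F N).filter (· ∈ A)).card : ENNReal) / (F N).card) atTop

lemma field_case (F : Type) [Field F] [Finite F] [CharP F 2] (a : F) :
    ∃ s x : F, s ^ 4 + s = 0 ∧ x ^ 4 + x = a ^ 2 + s * a := by
  have h2 : (2 : F) = 0 := by exact_mod_cast CharP.cast_eq_zero F 2
  let L : F →+ F :=
    { toFun := fun x => x ^ 4 + x
      map_zero' := by simp
      map_add' := fun x y => by linear_combination (2 * x ^ 3 * y + 3 * x ^ 2 * y ^ 2 + 2 * x * y ^ 3) * h2 }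
  have hL : ∀ x, L x = x ^ 4 + x := fun _ => rfl
  by_cases ha : a ∈ L.range
  · obtain ⟨x, rfl⟩ := ha
    exact ⟨0, x ^ 2, by simp, by rw [hL]; linear_combination (-x ^ 5) * h2⟩
  · let f : L.ker → F ⧸ L.range := fun s => ((s * a : F) : F ⧸ L.range)
    have hinj : Function.Injective f := by
      rintro ⟨s, hs⟩ ⟨r, hr⟩ h
      obtain ⟨x, hx⟩ := QuotientAddGroup.eq.1 h
      rw [AddMonoidHom.mem_ker, hL] at hs hr
      simp only [hL] at hx
      by_contra hne
      have h0 : r - s ≠ 0 := fun h0 => hne (Subtype.ext (sub_eq_zero.1 h0).symm)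
      have h4 : (r - s) ^ 4 = r - s := by
        linear_combination hs + hr + (-2 * r ^ 3 * s + 3 * r ^ 2 * s ^ 2 - 2 * r * s ^ 3 - r) * h2
      refine ha ⟨x / (r - s), ?_⟩
      rw [hL, div_pow, h4, ← add_div, hx]
      field_simp
      ring
    have hc : Nat.card L.ker = Nat.card (F ⧸ L.range) := by
      have e1 := L.ker.card_mul_index
      have e2 := L.range.card_mul_index
      rw [AddSubgroup.index_ker] at e1
      rw [← e2, mul_comm] at e1
      exact Nat.eq_of_mul_eq_mul_left Nat.card_pos e1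
    obtain ⟨⟨s, hs⟩, h⟩ := ((Nat.bijective_iff_injective_and_card f).2 ⟨hinj, hc⟩).2
      ((a ^ 2 : F) : F ⧸ L.range)
    obtain ⟨x, hx⟩ := QuotientAddGroup.eq.1 h
    simp only [hL] at hx
    exact ⟨s, x, hs, by linear_combination hx - (s * a) * h2⟩

lemma ring_case (R : Type) [CommRing R] [Finite R] (h2 : (2 : R) = 0) (a : R) :
    ∃ x : R, (x ^ 4 + x + a ^ 2) ^ 4 + a ^ 3 * (x ^ 4 + x + a ^ 2) = 0 := by
  have newton : ∀ x z : R, IsNilpotent (x ^ 4 + x - z) →
      ∃ y, IsNilpotent (x - y) ∧ y ^ 4 + y = z := by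
    intro x z h
    obtain ⟨y, ⟨h1, h3⟩, -⟩ := existsUnique_nilpotent_sub_and_aeval_eq_zero
      (P := (X ^ 4 + X - C z : R[X])) (x := x) (by simpa using h) (by
        simp only [derivative_sub, derivative_add, derivative_X_pow, derivative_X, derivative_C]
        simp
        rw [show (4 : R) = 0 by linear_combination 2 * h2]
        simp)
    exact ⟨y, h1, by simpa [sub_eq_zero] using h3⟩
  have hf : ∀ I : MaximalSpectrum R, ∃ s x : R ⧸ I.asIdeal, s ^ 4 + s = 0 ∧
      x ^ 4 + x = Ideal.Quotient.mk _ a ^ 2 + s * Ideal.Quotient.mk _ a := by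
    intro I
    let := Ideal.Quotient.field I.asIdeal
    have : CharP (R ⧸ I.asIdeal) 2 := CharTwo.of_one_ne_zero_of_two_eq_zero one_ne_zero
      (by simpa only [map_ofNat, map_zero] using congrArg (Ideal.Quotient.mk I.asIdeal) h2)
    have : Finite (R ⧸ I.asIdeal) := Finite.of_surjective _ Ideal.Quotient.mk_surjective
    exact field_case _ _
  choose s x hs hx using hf
  let π : R →+* ∀ I : MaximalSpectrum R, R ⧸ I.asIdeal :=
    RingHom.pi fun I => Ideal.Quotient.mk I.asIdeal
  have hsurj : Function.Surjective π := fun y => by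
    obtain ⟨z, rfl⟩ := (IsArtinianRing.quotNilradicalEquivPi R).surjective y
    obtain ⟨z, rfl⟩ := Ideal.Quotient.mk_surjective z
    exact ⟨z, rfl⟩
  have hker : ∀ z, π z = 0 → IsNilpotent z := fun z hz => by
    rw [← mem_nilradical, IsArtinianRing.nilradical_eq_iInf, Ideal.mem_iInf]
    exact fun I => Ideal.Quotient.eq_zero_iff_mem.1 (congrFun hz I)
  obtain ⟨s, rfl⟩ := hsurj s
  obtain ⟨x, rfl⟩ := hsurj x
  obtain ⟨r, hr, hr0⟩ := newton s 0 (hker _ (funext fun I => by simpa using hs I))
  have h1 : IsNilpotent (x ^ 4 + x - (a ^ 2 + s * a)) := hker _ (funext fun I => by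
    simpa [sub_eq_zero, π] using hx I)
  obtain ⟨y, -, hy⟩ := newton x (a ^ 2 + r * a) (by
    have := (Commute.all _ _).isNilpotent_add h1 ((Commute.all _ a).isNilpotent_mul_right hr)
    convert this using 1
    ring)
  refine ⟨y, ?_⟩
  have : y ^ 4 + y + a ^ 2 = r * a := by linear_combination hy + a ^ 2 * h2
  rw [this]
  linear_combination a ^ 4 * hr0

noncomputable def P : O[X] := (X ^ 4 + X + C X ^ 2) ^ 4 + C X ^ 3 * (X ^ 4 + X + C X ^ 2)

lemma two : (2 : O) = 0 := by exact_mod_cast CharP.cast_eq_zero O 2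

lemma P_mod (I : Ideal O) (hI : I ≠ ⊥) : ∃ n, P.eval n ∈ I := by
  obtain ⟨g, rfl⟩ := (IsPrincipalIdealRing.principal I).principal
  have hg : g ≠ 0 := by rintro rfl; simp at hI
  have : Module.Finite (ZMod 2) (O ⧸ Ideal.span {g}) := (AdjoinRoot.powerBasis hg).finite
  have : Finite (O ⧸ Ideal.span {g}) := Module.finite_of_finite (ZMod 2)
  obtain ⟨x, hx⟩ := ring_case (O ⧸ Ideal.span {g})
    (by simpa only [map_ofNat, map_zero] using congrArg (Ideal.Quotient.mk (Ideal.span {g})) two)
    (Ideal.Quotient.mk _ X)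
  obtain ⟨n, rfl⟩ := Ideal.Quotient.mk_surjective x
  refine ⟨n, Ideal.Quotient.eq_zero_iff_mem.1 ?_⟩
  simpa [P] using hx

lemma P_ne (n : O) : P.eval n ≠ 0 := by
  intro h
  simp only [P, eval_add, eval_pow, eval_mul, eval_X, eval_C] at h
  have h1 : (n ^ 4 + n + X ^ 2).natDegree ≤ 1 := by
    generalize n ^ 4 + n + X ^ 2 = V at h
    by_cases hV : V = 0
    · simp [hV]
    · have : V ^ 3 = X ^ 3 := mul_right_cancel₀ hV (by linear_combination h - X ^ 3 * V * two)
      have := congrArg natDegree this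
      simp at this
      omega
  have h2 : (n ^ 4 + n).natDegree = 2 := by
    have : n ^ 4 + n = (n ^ 4 + n + X ^ 2) + X ^ 2 := by linear_combination -X ^ 2 * two
    rw [this, natDegree_add_eq_right_of_natDegree_lt (by simp; omega)]
    simp
  by_cases h0 : n.natDegree = 0
  · have := natDegree_add_le (n ^ 4) n
    simp [h0] at this
    omega
  · rw [natDegree_add_eq_left_of_natDegree_lt (by simp; omega), natDegree_pow] at h2
    omega

lemma exists_phi : ∃ φ : O →ₗ[ZMod 2] ZMod 2, ∀ n, φ (P.eval n) ≠ 0 := by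
  let A : O →+ O :=
    { toFun := fun n => P.eval n - P.eval 0
      map_zero' := by simp
      map_add' := fun x y => by
        have e : ∀ u v : O, (u + v) ^ 4 = u ^ 4 + v ^ 4 := fun u v => by
          linear_combination (2 * u ^ 3 * v + 3 * u ^ 2 * v ^ 2 + 2 * u * v ^ 3) * two
        simp only [P, eval_add, eval_pow, eval_mul, eval_X, eval_C, e]
        ring }
  have h : P.eval 0 ∉ LinearMap.range (A.toZModLinearMap 2) := by
    rintro ⟨n, hn⟩
    apply P_ne n
    change P.eval n - P.eval 0 = _ at hn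
    linear_combination hn + P.eval 0 * two
  obtain ⟨φ, h1, h2⟩ := Submodule.exists_dual_map_eq_bot_of_notMem h inferInstance
  refine ⟨φ, fun n hn => h1 ?_⟩
  have : φ (P.eval n - P.eval 0) ∈ Submodule.map φ (LinearMap.range (A.toZModLinearMap 2)) :=
    ⟨_, ⟨n, rfl⟩, rfl⟩
  simpa [h2, hn] using this

lemma dstar_pos (φ : O →ₗ[ZMod 2] ZMod 2) : 0 < dstar {x | φ x = 0} := by
  classical
  have hfin : ∀ N, (degreeLT (ZMod 2) N : Set O).Finite := fun N =>
    Set.finite_coe_iff.1 (Finite.of_equiv _ (degreeLTEquiv (ZMod 2) N).toEquiv.symm)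
  let F : ℕ → Finset O := fun N => (hfin N).toFinset
  have hF : ∀ N x, x ∈ F N ↔ x ∈ degreeLT (ZMod 2) N := fun N x => by simp [F]
  have hne : ∀ N, (F N).Nonempty := fun N => ⟨0, (hF _ _).2 (zero_mem _)⟩
  have hFo : IsFolner F := by
    refine ⟨hne, fun a => tendsto_const_nhds.congr' ?_⟩
    filter_upwards [eventually_gt_atTop a.natDegree] with N hN
    have ha : a ∈ degreeLT (ZMod 2) N := mem_degreeLT.2 (degree_le_natDegree.trans_lt (by exact_mod_cast hN))
    have : (F N).image (· + a) = F N := by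
      ext x
      simp only [Finset.mem_image, hF]
      exact ⟨fun ⟨y, hy, e⟩ => e ▸ add_mem hy ha, fun hx => ⟨x - a, sub_mem hx ha, by simp⟩⟩
    have e : (symmDiff ((F N).image (· + a)) (F N)).card = 0 := by rw [this]; simp
    have e' : (0 : ℝ) = ((symmDiff ((F N).image (· + a)) (F N)).card : ℝ) / (F N).card := by
      rw [e]; simp
    convert e'
  refine lt_of_lt_of_le (b := 1 / 2) (by simp) (le_iSup₂_of_le F hFo ?_)
  refine le_limsup_of_frequently_le (Frequently.of_forall fun N => ?_)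
  have h1 : ((F N).filter fun x => ¬ φ x = 0).card ≤ ((F N).filter fun x => φ x = 0).card := by
    rcases ((F N).filter fun x => ¬ φ x = 0).eq_empty_or_nonempty with h | ⟨y, hy⟩
    · simp [h]
    · apply Finset.card_le_card_of_injOn (· + y) _ (fun _ _ _ _ h => add_right_cancel h)
      intro x hx
      simp only [Finset.coe_filter, Finset.mem_filter, hF, Set.mem_ofPred_eq, map_add] at hx hy ⊢
      refine ⟨add_mem hx.1 hy.1, ?_⟩
      have a1 := hx.2
      have a2 := hy.2
      revert a1 a2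
      generalize φ x = u
      generalize φ y = v
      revert u v
      decide
  have h2 := Finset.card_filter_add_card_filter_not (s := F N) fun x => φ x = 0
  have h3 : (F N).card ≤ ((F N).filter fun x => φ x = 0).card * 2 := by omega
  rw [ENNReal.le_div_iff_mul_le (Or.inl (by simpa using (hne N).ne_empty)) (Or.inl (by simp)),
    one_div, mul_comm, ← div_eq_mul_inv, ENNReal.div_le_iff (by simp) (by simp)]
  have h4 := (Nat.cast_le (α := ENNReal)).2 h3
  push_cast at h4
  convert h4 using 4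
  · rfl
  · ext x
    simp

theorem result (k : ℕ) (hk : 1 ≤ k) : ∃ P : Fin k → O[X], (∀ i, 0 < (P i).natDegree) ∧
    Function.Injective P ∧
    (∀ I : Ideal O, I ≠ ⊥ → ∃ n : O, ∀ i, (P i).eval n ∈ I) ∧
    ¬ ∀ A : Set O, 0 < dstar A → ∃ x n : O, x ∈ A ∧ ∀ i, x + (P i).eval n ∈ A := by
  have hP : P.natDegree = 16 := by unfold P; compute_degree!
  have h0 : P ≠ 0 := by rintro h; simp [h] at hP
  have hd : ∀ i : ℕ, (X ^ i * P).natDegree = i + 16 := fun i => by
    rw [natDegree_X_pow_mul _ h0, hP, add_comm]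
  refine ⟨fun i => X ^ (i : ℕ) * P, fun i => by rw [hd]; omega, fun i j h => ?_, fun I hI => ?_, ?_⟩
  · have := congrArg natDegree h
    simp only [hd] at this
    exact Fin.ext (by omega)
  · obtain ⟨n, hn⟩ := P_mod I hI
    exact ⟨n, fun i => by rw [eval_mul]; exact I.mul_mem_left _ hn⟩
  · intro h
    obtain ⟨φ, hφ⟩ := exists_phi
    obtain ⟨x, n, hx, hn⟩ := h _ (dstar_pos φ)
    have := hn ⟨0, hk⟩
    simp only [Set.mem_ofPred_eq, map_add, pow_zero, one_mul] at this hx
    exact hφ n (by rwa [hx, zero_add] at this)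

end Pool.Agent.Results.MP_045218_nt.Counter
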